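import Pool.Agent.H44.EHN.Stmts

/-!
Row UNQ of the board ehn (MP_48f148_nt): the two integers are different.
-/

set_option autoImplicit false

open Classical

namespace EHN

theorem UNQ_aux (L H x0 : ℕ) (a b q : ℕ → ℕ) (A B : Finset ℕ) (hA : A ⊆ Finset.range L)
    (hB : B ⊆ Finset.range L) (hAB : Disjoint A B)
    (h : ∀ i < L, x0 ≤ a i ∧ a i < b i ∧ b i ≤ x0 + H ∧ (q i).Prime ∧ q i ∣ b i ∧ H < q i)
    (hab : ∀ i j, i < j → j < L → b i < a j) (i : ℕ) (hi : i ∈ A)
    (e : ∏ i ∈ A, ∏ k ∈ Finset.Ioc (a i) (b i), k = ∏ i ∈ B, ∏ k ∈ Finset.Ioc (a i) (b i), k) :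
    False := by
  have hiL : i < L := Finset.mem_range.mp (hA hi)
  obtain ⟨h1, h2, h3, h4, h5, h6⟩ := h i hiL
  have d1 : q i ∣ ∏ i ∈ A, ∏ k ∈ Finset.Ioc (a i) (b i), k := by
    refine dvd_trans ?_ (Finset.dvd_prod_of_mem _ hi)
    exact dvd_trans h5 (Finset.dvd_prod_of_mem (fun k => k) (Finset.mem_Ioc.mpr ⟨h2, le_rfl⟩))
  rw [e] at d1
  obtain ⟨j, hj, d2⟩ := (Prime.dvd_finsetProd_iff h4.prime _).mp d1
  obtain ⟨k, hk, d3⟩ := (Prime.dvd_finsetProd_iff h4.prime _).mp d2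
  have hjL : j < L := Finset.mem_range.mp (hB hj)
  obtain ⟨g1, g2, g3, _, _, _⟩ := h j hjL
  rw [Finset.mem_Ioc] at hk
  have hne : i ≠ j := by
    rintro rfl
    exact (Finset.disjoint_left.mp hAB hi) hj
  have hkb : k = b i := by
    rcases le_total k (b i) with hle | hle
    · have d4 : q i ∣ b i - k := Nat.dvd_sub h5 d3
      rcases Nat.eq_zero_or_pos (b i - k) with h0 | h0
      · omega
      · have := Nat.le_of_dvd h0 d4
        omega
    · have d4 : q i ∣ k - b i := Nat.dvd_sub d3 h5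
      rcases Nat.eq_zero_or_pos (k - b i) with h0 | h0
      · omega
      · have := Nat.le_of_dvd h0 d4
        omega
  rcases Nat.lt_or_gt_of_ne hne with hlt | hlt
  · have := hab i j hlt hjL
    omega
  · have := hab j i hlt hiL
    omega

theorem unq_thm : UNQStmt := by
  intro L H x0 a b q A B hA hB hAB hne h hab e
  obtain ⟨i, hi⟩ := hne
  rcases Finset.mem_union.mp hi with hi | hi
  · exact UNQ_aux L H x0 a b q A B hA hB hAB h hab i hi e
  · exact UNQ_aux L H x0 a b q B A hB hA hAB.symm h hab i hi e.symm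

end EHN
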